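import Pool.Agent.Helper98.EY.StmtsB
import Pool.Agent.Helper38.EX.QHIT

/-!
# ey_mods.QG: a closed window relaxes (L2 decay and tails)
-/

namespace Pool.Agent.Helper98.EX

open Finset

section qg

variable {N : ℕ}

/-- total weight -/
theorem qg_total {r l : ℕ → ℝ} (h : Adm N r l) {A x0 B : ℕ} {D : ℝ} (h1 : A ≤ x0)
    (h2 : x0 < B) (hB : B ≤ N) (hD : 1 ≤ D)
    (hRR : ∀ z x, A ≤ z → z ≤ x → x < B → RR r l z x ≤ D)
    (η0 : Cfg N) : ∑ ξ ∈ XW A x0 B η0, pw r l A x0 B ξ ≤ (2 * D) ^ (B - A) := by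
  classical
  -- site weights on all sites
  set g : ℕ → Bool → ℝ := fun i c => if A ≤ i ∧ i < B then qhit_w r l x0 i c
    else (if c = occ η0 i then 1 else 0) with hg
  have hg0 : ∀ i c, 0 ≤ g i c := by
    intro i c
    rw [hg]
    simp only
    split_ifs with h3 h4
    · unfold qhit_w
      split_ifs
      · exact qhit_RR_nonneg h (by omega)
      · exact zero_le_one
      · exact zero_le_one
      · exact qhit_RR_nonneg h (by omega)
    · exact zero_le_one
    · exact le_rfl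
  have hprod : ∀ ξ ∈ XW A x0 B η0, pw r l A x0 B ξ = ∏ i : Fin N, g i.val (ξ i) := by
    intro ξ hξ
    unfold XW at hξ
    rw [Finset.mem_filter] at hξ
    have e1 : ∏ i : Fin N, g i.val (ξ i) = ∏ i ∈ Finset.range N, g i (occ ξ i) := by
      rw [Finset.prod_range]
      apply Finset.prod_congr rfl
      intro i _
      rw [occ_fin]
    rw [e1, Finset.range_eq_Ico,
      ← Finset.prod_Ico_consecutive _ (Nat.zero_le A) (show A ≤ N by omega),
      ← Finset.prod_Ico_consecutive _ (show A ≤ B by omega) hB]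
    have e2 : ∏ i ∈ Finset.Ico 0 A, g i (occ ξ i) = 1 := by
      apply Finset.prod_eq_one
      intro i hi
      rw [Finset.mem_Ico] at hi
      rw [hg]
      simp only
      rw [if_neg (by omega), if_pos (hξ.2.2 i (Finset.mem_range.2 (by omega)) (Or.inl hi.2))]
    have e3 : ∏ i ∈ Finset.Ico B N, g i (occ ξ i) = 1 := by
      apply Finset.prod_eq_one
      intro i hi
      rw [Finset.mem_Ico] at hi
      rw [hg]
      simp only
      rw [if_neg (by omega), if_pos (hξ.2.2 i (Finset.mem_range.2 (by omega)) (Or.inr hi.1))]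
    rw [e2, e3, one_mul, mul_one, qhit_pw r l h1 h2.le]
    apply Finset.prod_congr rfl
    intro i hi
    rw [Finset.mem_Ico] at hi
    rw [hg]
    simp only
    rw [if_pos hi]
  have hsum : ∑ ξ : Cfg N, ∏ i : Fin N, g i.val (ξ i) = ∏ i : Fin N, ∑ c : Bool, g i.val c := by
    rw [Finset.prod_univ_sum, Fintype.piFinset_univ]
  have hle : ∑ ξ ∈ XW A x0 B η0, pw r l A x0 B ξ ≤ ∏ i : Fin N, ∑ c : Bool, g i.val c := by
    rw [← hsum, Finset.sum_congr rfl hprod]
    apply Finset.sum_le_sum_of_subset_of_nonneg (Finset.subset_univ _)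
    intro ξ _ _
    exact Finset.prod_nonneg fun i _ => hg0 _ _
  refine hle.trans ?_
  have e1 : ∏ i : Fin N, ∑ c : Bool, g i.val c = ∏ i ∈ Finset.range N, ∑ c : Bool, g i c := by
    rw [Finset.prod_range]
  rw [e1, Finset.range_eq_Ico,
      ← Finset.prod_Ico_consecutive _ (Nat.zero_le A) (show A ≤ N by omega),
      ← Finset.prod_Ico_consecutive _ (show A ≤ B by omega) hB]
  have e2 : ∏ i ∈ Finset.Ico 0 A, ∑ c : Bool, g i c = 1 := by
    apply Finset.prod_eq_one
    intro i hi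
    rw [Finset.mem_Ico] at hi
    have hn : ¬ (A ≤ i ∧ i < B) := by omega
    rw [hg]
    simp only [if_neg hn]
    rw [Fintype.sum_bool]
    rcases occ η0 i <;> simp
  have e3 : ∏ i ∈ Finset.Ico B N, ∑ c : Bool, g i c = 1 := by
    apply Finset.prod_eq_one
    intro i hi
    rw [Finset.mem_Ico] at hi
    have hn : ¬ (A ≤ i ∧ i < B) := by omega
    rw [hg]
    simp only [if_neg hn]
    rw [Fintype.sum_bool]
    rcases occ η0 i <;> simp
  have e4 : ∏ i ∈ Finset.Ico A B, ∑ c : Bool, g i c ≤ (2 * D) ^ (B - A) := by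
    have e5 : (2 * D) ^ (B - A) = ∏ _i ∈ Finset.Ico A B, (2 * D) := by
      rw [Finset.prod_const, Nat.card_Ico]
    rw [e5]
    apply Finset.prod_le_prod
    · intro i _
      exact Finset.sum_nonneg fun c _ => hg0 _ _
    · intro i hi
      rw [Finset.mem_Ico] at hi
      rw [hg]
      simp only [if_pos hi]
      rw [Fintype.sum_bool]
      unfold qhit_w
      rcases lt_or_ge i x0 with hlt | hge
      · rw [if_pos hlt, if_pos hlt]
        have := hRR i x0 hi.1 hlt.le h2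
        simp only [if_true, Bool.false_eq_true, if_false]
        linarith
      · rw [if_neg (not_lt.2 hge), if_neg (not_lt.2 hge)]
        have := hRR x0 i h1 hge hi.2
        simp only [if_true, Bool.false_eq_true, if_false]
        linarith
  rw [e2, e3, one_mul, mul_one]
  exact e4

/-- stationarity -/
theorem qg_stat {r l : ℕ → ℝ} (h : Adm N r l) {A x0 B : ℕ} (h1 : A ≤ x0) (h2 : x0 < B)
    (hB : B ≤ N) (η0 : Cfg N) (f : Cfg N → ℝ) :
    ∑ ξ ∈ XW A x0 B η0, pw r l A x0 B ξ * stp r l (Finset.Ioo A B) f ξ =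
      ∑ ξ ∈ XW A x0 B η0, pw r l A x0 B ξ * f ξ := by
  have hst : ∀ ξ : Cfg N, stp r l (Finset.Ioo A B) f ξ =
      f ξ + (∑ b ∈ Finset.Ioo A B, qhit_G r l b f ξ) / (2 * N) := by
    intro ξ
    rw [stp_open]
    rfl
  have h0 : ∀ b ∈ Finset.Ioo A B,
      ∑ ξ ∈ XW A x0 B η0, pw r l A x0 B ξ * qhit_G r l b f ξ = 0 := by
    intro b hb
    rw [Finset.mem_Ioo] at hb
    have e := qhit_exch r l h1 h2.le hb.1 hb.2 hB (h b (by omega) (by omega)).1.ne' η0
      (fun a c => f c - f a) (fun a => by ring)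
    have e1 : ∑ ξ ∈ XW A x0 B η0, pw r l A x0 B ξ * qhit_G r l b f ξ =
        ∑ ξ ∈ XW A x0 B η0, pw r l A x0 B ξ * (r b * (f (Rm b ξ) - f ξ)) +
        ∑ ξ ∈ XW A x0 B η0, pw r l A x0 B ξ * (l b * (f (Lm b ξ) - f ξ)) := by
      rw [← Finset.sum_add_distrib]
      apply Finset.sum_congr rfl
      intro ξ _
      unfold qhit_G
      ring
    rw [e1, e, ← Finset.sum_add_distrib]
    apply Finset.sum_eq_zero
    intro ξ _
    ring
  calc ∑ ξ ∈ XW A x0 B η0, pw r l A x0 B ξ * stp r l (Finset.Ioo A B) f ξ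
      = ∑ ξ ∈ XW A x0 B η0, (pw r l A x0 B ξ * f ξ +
          (∑ b ∈ Finset.Ioo A B, pw r l A x0 B ξ * qhit_G r l b f ξ) / (2 * N)) := by
        apply Finset.sum_congr rfl
        intro ξ _
        rw [hst, mul_add, ← mul_div_assoc, Finset.mul_sum]
    _ = ∑ ξ ∈ XW A x0 B η0, pw r l A x0 B ξ * f ξ +
        (∑ b ∈ Finset.Ioo A B, ∑ ξ ∈ XW A x0 B η0, pw r l A x0 B ξ * qhit_G r l b f ξ) / (2 * N) := by
        rw [Finset.sum_add_distrib, ← Finset.sum_div, Finset.sum_comm]
    _ = ∑ ξ ∈ XW A x0 B η0, pw r l A x0 B ξ * f ξ := by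
        rw [Finset.sum_eq_zero h0, zero_div, add_zero]

/-- double sum of squares -/
theorem qg_var {ι : Type*} (s : Finset ι) (p f : ι → ℝ) (h0 : ∑ i ∈ s, p i * f i = 0) :
    ∑ i ∈ s, ∑ j ∈ s, p i * p j * (f i - f j) ^ 2 =
      2 * (∑ i ∈ s, p i) * ∑ i ∈ s, p i * f i ^ 2 := by
  have e : ∀ i ∈ s, ∑ j ∈ s, p i * p j * (f i - f j) ^ 2 =
      p i * f i ^ 2 * (∑ j ∈ s, p j) + p i * (∑ j ∈ s, p j * f j ^ 2) := by
    intro i _
    have e1 : ∀ j ∈ s, p i * p j * (f i - f j) ^ 2 =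
        p i * f i ^ 2 * p j + p i * (p j * f j ^ 2) - 2 * (p i * f i) * (p j * f j) := by
      intro j _; ring
    rw [Finset.sum_congr rfl e1, Finset.sum_sub_distrib, Finset.sum_add_distrib, ← Finset.mul_sum,
      ← Finset.mul_sum, ← Finset.mul_sum, h0]
    ring
  rw [Finset.sum_congr rfl e, Finset.sum_add_distrib, ← Finset.sum_mul, ← Finset.sum_mul]
  ring

/-- the sorted configuration of the window -/
def qg_srt (A x0 B : ℕ) (η : Cfg N) : Cfg N :=
  fun i => if A ≤ i.val ∧ i.val < B then decide (x0 ≤ i.val) else η i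

theorem qg_srt_in {A x0 B : ℕ} (hB : B ≤ N) (η : Cfg N) {i : ℕ} (h1 : A ≤ i) (h2 : i < B) :
    occ (qg_srt A x0 B η) i = decide (x0 ≤ i) := by
  rw [occ_lt (by omega : i < N)]
  unfold qg_srt
  rw [if_pos ⟨h1, h2⟩]

theorem qg_srt_out {A x0 B : ℕ} (η : Cfg N) {i : ℕ} (hi : i < N) (h : i < A ∨ B ≤ i) :
    occ (qg_srt A x0 B η) i = occ η i := by
  rw [occ_lt hi, occ_lt hi]
  unfold qg_srt
  rw [if_neg (by simp only []; omega)]

theorem qg_srt_cnt {A x0 B : ℕ} (h1 : A ≤ x0) (h2 : x0 ≤ B) (hB : B ≤ N) (η : Cfg N) :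
    cnt (qg_srt A x0 B η) A B = B - x0 := by
  unfold cnt
  rw [← Finset.sum_Ico_consecutive _ h1 h2]
  have e1 : ∑ i ∈ Finset.Ico A x0, (if occ (qg_srt A x0 B η) i = true then 1 else 0) = 0 := by
    apply Finset.sum_eq_zero
    intro i hi
    rw [Finset.mem_Ico] at hi
    rw [qg_srt_in hB η hi.1 (by omega), if_neg]
    simp only [decide_eq_true_eq]
    omega
  have e2 : ∑ i ∈ Finset.Ico x0 B, (if occ (qg_srt A x0 B η) i = true then 1 else 0) = B - x0 := by
    rw [Finset.sum_congr rfl (g := fun _ => 1)]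
    · simp
    · intro i hi
      rw [Finset.mem_Ico] at hi
      rw [qg_srt_in hB η (by omega) hi.2, if_pos]
      simp only [decide_eq_true_eq]
      omega
  rw [e1, e2, zero_add]

theorem qg_srt_sorted {A x0 B : ℕ} (h1 : A ≤ x0) (hB : B ≤ N) (h2 : x0 ≤ B) (η : Cfg N) :
    qg_srt A x0 B η ∈ (sorted A x0 x0 B : Set (Cfg N)) := by
  constructor
  · intro i hi1 hi2
    rw [qg_srt_in hB η hi1 (by omega)]
    simp only [decide_eq_false_iff_not]
    omega
  · intro i hi1 hi2
    rw [qg_srt_in hB η (by omega) hi2]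
    simp only [decide_eq_true_eq]
    omega

end qg

theorem st_QG (hG : ST_GPOIN) (hL : ST_LOC) (hT : ST_TOPTAIL) : ST_QG := by
  intro N r l S A q1 x0 q2 B m D rmin lmin η hA hPos h1 hq1 hq2 h2 hAB hB hAS hBS hS hr0 hl0 hl1 hb hD
    hRR hcnt
  obtain ⟨-, hL2, hL3⟩ := hL
  have htail : 0 ≤ ∑ z ∈ Finset.Ico A q1, ∑ x ∈ Finset.Ico x0 B, RR r l z x +
      ∑ z ∈ Finset.Ico A x0, ∑ x ∈ Finset.Ico q2 B, RR r l z x := by
    apply add_nonneg <;>
    · apply Finset.sum_nonneg
      intro z hz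
      apply Finset.sum_nonneg
      intro x hx
      rw [Finset.mem_Ico] at hz hx
      exact qhit_RR_nonneg hA (by omega)
  rcases h2.eq_or_lt with hx0 | hx0B
  · -- no particles
    have hsub : (sorted A q1 q2 B : Set (Cfg N))ᶜ ⊆ {ξ | cnt ξ A B ≠ cnt η A B} := by
      intro ξ hξ hc
      apply hξ
      have h0 : cnt ξ A B = 0 := by rw [hc, hcnt, hx0]; omega
      refine ⟨?_, ?_⟩
      · intro i hi1 hi2
        by_contra ho
        have ho' : occ ξ i = true := by simpa using ho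
        unfold cnt at h0
        rw [Finset.sum_eq_zero_iff] at h0
        have h3 := h0 i (Finset.mem_Ico.2 ⟨hi1, by omega⟩)
        rw [if_pos ho'] at h3
        exact absurd h3 one_ne_zero
      · intro i hi1 hi2
        omega
    have h3 := pr_mono hA (fun _ => S) m hsub η
    rw [hL2 N r l (fun _ => S) m A B η hAB.le hB (fun _ => ⟨hAS, hBS⟩)] at h3
    have h4 := (Real.exp_pos (((B : ℝ) - A) ^ 2 * Real.log (1 / lmin) +
      ((B : ℝ) - A) * Real.log (2 * D) - m * rmin / (4 * N * (((B : ℝ) - A) ^ 5 * D ^ 2)))).le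
    linarith
  have hN : (0 : ℝ) < N := by
    have : 0 < N := by omega
    exact_mod_cast this
  have hW : (0 : ℝ) < (B : ℝ) - A := by
    have : (A : ℝ) < B := by exact_mod_cast hAB
    linarith
  have hD0 : 0 < D := by linarith
  -- reduction to the open bonds inside
  have hloc : ∀ ζ ξ : Cfg N, (∀ x, A ≤ x → x < B → occ ζ x = occ ξ x) →
      ind (sorted A q1 q2 B)ᶜ ζ = ind (sorted A q1 q2 B)ᶜ ξ := by
    intro ζ ξ hzx
    have hiff : ζ ∈ (sorted A q1 q2 B : Set (Cfg N)) ↔ ξ ∈ (sorted A q1 q2 B : Set (Cfg N)) := by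
      simp only [sorted, Set.mem_setOf_eq]
      constructor
      · rintro ⟨a, b⟩
        refine ⟨fun i hi1 hi2 => ?_, fun i hi1 hi2 => ?_⟩
        · rw [← hzx i hi1 (by omega)]; exact a i hi1 hi2
        · rw [← hzx i (by omega) hi2]; exact b i hi1 hi2
      · rintro ⟨a, b⟩
        refine ⟨fun i hi1 hi2 => ?_, fun i hi1 hi2 => ?_⟩
        · rw [hzx i hi1 (by omega)]; exact a i hi1 hi2
        · rw [hzx i (by omega) hi2]; exact b i hi1 hi2
    by_cases hz : ζ ∈ (sorted A q1 q2 B : Set (Cfg N))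
    · rw [ind_of_not_mem (by simpa using hz), ind_of_not_mem (by simpa using hiff.1 hz)]
    · rw [ind_of_mem (by simpa using hz), ind_of_mem (by simpa using fun hh => hz (hiff.2 hh))]
  have hint : (fun _ : ℕ => S ∩ Finset.Ioo A B) = (fun _ : ℕ => Finset.Ioo A B) := by
    funext _
    ext x
    simp only [Finset.mem_inter, Finset.mem_Ioo]
    exact ⟨fun h => h.2, fun h => ⟨hS x h.1 h.2, h⟩⟩
  have hred : pr r l (fun _ => S) m (sorted A q1 q2 B)ᶜ η =
      pr r l (fun _ => Finset.Ioo A B) m (sorted A q1 q2 B)ᶜ η := by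
    have := hL3 N r l (fun _ => S) m A B (ind (sorted A q1 q2 B)ᶜ) η (fun _ => ⟨hAS, hBS⟩) hloc
    unfold pr
    rw [this, hint]
  rw [hred]
  set f0 : Cfg N → ℝ := ind (sorted A q1 q2 B)ᶜ with hf0
  have hf00 : ∀ ξ, 0 ≤ f0 ξ := fun ξ => ind_nonneg _ ξ
  have hf01 : ∀ ξ, f0 ξ ≤ 1 := fun ξ => ind_le_one _ ξ
  set u : ℕ → Cfg N → ℝ := fun k => ev r l (fun _ => Finset.Ioo A B) k f0 with hu
  have hus : ∀ k, u (k + 1) = stp r l (Finset.Ioo A B) (u k) := fun k => rfl
  set X := XW A x0 B η with hX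
  set p : Cfg N → ℝ := pw r l A x0 B with hp
  have hp0 : ∀ ξ, 0 ≤ p ξ := fun ξ => qhit_pw_nonneg hA h1 hx0B hB ξ
  have hlow : ∀ ξ, Real.exp (-(((B : ℝ) - A) ^ 2 * Real.log (1 / lmin))) ≤ p ξ := fun ξ =>
    qhit_lower hA h1 hx0B hB hl0 hl1 (fun b hb1 hb2 => (hb b hb1 hb2).2) ξ
  have hmem : η ∈ X := by
    rw [hX]
    unfold XW
    rw [Finset.mem_filter]
    exact ⟨Finset.mem_univ _, hcnt, fun _ _ _ => rfl⟩
  set Z := ∑ ξ ∈ X, p ξ with hZ
  have hZpos : 0 < Z := by
    refine lt_of_lt_of_le (Real.exp_pos _) ((hlow η).trans ?_)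
    exact Finset.single_le_sum (f := p) (fun ξ _ => hp0 ξ) hmem
  have hZle : Z ≤ (2 * D) ^ (B - A) := qg_total hA h1 hx0B hB hD hRR η
  set c := (∑ ξ ∈ X, p ξ * f0 ξ) / Z with hc
  have hc0 : 0 ≤ c := div_nonneg (Finset.sum_nonneg fun ξ _ => mul_nonneg (hp0 ξ) (hf00 ξ)) hZpos.le
  have hc1 : c ≤ 1 := by
    rw [hc, div_le_one hZpos]
    apply Finset.sum_le_sum
    intro ξ _
    exact mul_le_of_le_one_right (hp0 ξ) (hf01 ξ)
  set F : ℕ → Cfg N → ℝ := fun k ξ => u k ξ - c with hF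
  have hFs : ∀ k ξ, F (k + 1) ξ = stp r l (Finset.Ioo A B) (F k) ξ := by
    intro k ξ
    have e1 := stp_sub r l (Finset.Ioo A B) (u k) (fun _ => c) ξ
    rw [stp_const] at e1
    rw [hF]
    simp only []
    rw [hus]
    exact e1.symm
  have hmean : ∀ k, ∑ ξ ∈ X, p ξ * F k ξ = 0 := by
    intro k
    induction k with
    | zero =>
      have e1 : ∀ ξ ∈ X, p ξ * F 0 ξ = p ξ * f0 ξ - c * p ξ := by
        intro ξ _
        rw [hF]
        simp only [hu]
        rw [ev_zero]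
        ring
      rw [Finset.sum_congr rfl e1, Finset.sum_sub_distrib, ← Finset.mul_sum, hc, ← hZ,
        div_mul_cancel₀ _ hZpos.ne', sub_self]
    | succ k ih =>
      rw [Finset.sum_congr rfl (fun ξ _ => by rw [hFs k ξ])]
      rw [hp, hX, qg_stat hA h1 hx0B hB η (F k)]
      exact ih
  set CP : ℝ := ((B : ℝ) - A) ^ 5 * D ^ 2 * (2 * N) / rmin with hCP
  have hCP0 : 0 < CP := by rw [hCP]; positivity
  set nm : ℕ → ℝ := fun k => ∑ ξ ∈ X, p ξ * F k ξ ^ 2 with hnm
  have hnm0 : ∀ k, 0 ≤ nm k := fun k => Finset.sum_nonneg fun ξ _ => mul_nonneg (hp0 ξ) (sq_nonneg _)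
  have hstep : ∀ k, nm (k + 1) ≤ nm k * Real.exp (-(1 / CP)) := by
    intro k
    have e1 : nm (k + 1) = ∑ ξ ∈ X, p ξ * stp r l (Finset.Ioo A B) (F k) ξ ^ 2 := by
      rw [hnm]
      simp only []
      apply Finset.sum_congr rfl
      intro ξ _
      rw [hFs]
    have e2 := qhit_step hA h1 hx0B hB η (F k)
    set E := ∑ ξ ∈ XW A x0 B η, ∑ b ∈ Finset.Ioo A B,
        pw r l A x0 B ξ * (r b / (2 * N)) * (F k (Rm b ξ) - F k ξ) ^ 2 with hE
    have e3 := hG N r l A x0 B D rmin η (F k) hA hPos h1 h2 hAB hB hr0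
      (fun b hb1 hb2 => (hb b hb1 hb2).1) hD hRR
    have e4 : ∑ ξ ∈ XW A x0 B η, ∑ b ∈ Finset.Ioo A B,
        pw r l A x0 B ξ * r b * (F k (Rm b ξ) - F k ξ) ^ 2 = 2 * N * E := by
      rw [hE, Finset.mul_sum]
      apply Finset.sum_congr rfl
      intro ξ _
      rw [Finset.mul_sum]
      apply Finset.sum_congr rfl
      intro b _
      field_simp
    have e5 := qg_var X p (F k) (hmean k)
    rw [e4] at e3
    have e6 : 2 * Z * nm k ≤ 2 * Z * (CP * E) := by
      calc 2 * Z * nm k = ∑ i ∈ X, ∑ j ∈ X, p i * p j * (F k i - F k j) ^ 2 := e5.symm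
        _ ≤ (2 * ((B : ℝ) - A) ^ 5 * D ^ 2 / rmin) * Z * (2 * N * E) := e3
        _ = 2 * Z * (CP * E) := by rw [hCP]; ring
    have e7 : nm k ≤ CP * E := le_of_mul_le_mul_left e6 (by positivity)
    have e8 : nm k / CP ≤ E := by
      rw [div_le_iff₀ hCP0]
      linarith
    have e9 : nm (k + 1) ≤ nm k * (1 - 1 / CP) := by
      have : nm k * (1 - 1 / CP) = nm k - nm k / CP := by ring
      rw [this]
      have e10 : nm (k + 1) ≤ nm k - E := by rw [e1]; exact e2
      linarith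
    refine e9.trans ?_
    apply mul_le_mul_of_nonneg_left _ (hnm0 k)
    have := Real.add_one_le_exp (-(1 / CP))
    linarith
  have hbase : nm 0 ≤ Z := by
    apply Finset.sum_le_sum
    intro ξ _
    apply mul_le_of_le_one_right (hp0 ξ)
    have a1 : F 0 ξ = f0 ξ - c := rfl
    rw [a1]
    have := hf00 ξ
    have := hf01 ξ
    nlinarith
  have hall : ∀ k : ℕ, nm k ≤ Z * Real.exp (-(k / CP)) := by
    intro k
    induction k with
    | zero => simpa using hbase
    | succ k ih =>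
      refine (hstep k).trans ?_
      calc nm k * Real.exp (-(1 / CP)) ≤ Z * Real.exp (-(k / CP)) * Real.exp (-(1 / CP)) :=
            mul_le_mul_of_nonneg_right ih (Real.exp_pos _).le
        _ = Z * Real.exp (-((k + 1 : ℕ) / CP)) := by
            rw [mul_assoc, ← Real.exp_add]
            congr 2
            push_cast
            ring
  set L : ℝ := ((B : ℝ) - A) ^ 2 * Real.log (1 / lmin) with hLd
  have hL0 : 0 ≤ L := by
    rw [hLd]
    apply mul_nonneg (sq_nonneg _)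
    apply Real.log_nonneg
    rw [le_div_iff₀ hl0]
    linarith
  set L2 : ℝ := ((B : ℝ) - A) * Real.log (2 * D) with hL2d
  have hL20 : 0 ≤ L2 := mul_nonneg hW.le (Real.log_nonneg (by linarith))
  have hZe : Z ≤ Real.exp L2 := by
    refine hZle.trans (le_of_eq ?_)
    have e4 : ((B : ℝ) - A) = ((B - A : ℕ) : ℝ) := by
      rw [Nat.cast_sub (by omega)]
    rw [hL2d, e4, Real.exp_nat_mul, Real.exp_log (by positivity)]
  have hptw : ∀ (k : ℕ) (ζ : Cfg N), ζ ∈ X → |F k ζ| ≤ Real.exp (L + L2 - k / (2 * CP)) := by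
    intro k ζ hζ
    have hpt : p ζ * F k ζ ^ 2 ≤ Z * Real.exp (-(k / CP)) := by
      refine le_trans ?_ (hall k)
      exact Finset.single_le_sum (f := fun ξ => p ξ * F k ξ ^ 2)
        (fun ξ _ => mul_nonneg (hp0 ξ) (sq_nonneg _)) hζ
    have e1 : Real.exp (-L) * F k ζ ^ 2 ≤ Real.exp (L2 - k / CP) := by
      refine ((mul_le_mul_of_nonneg_right (hlow ζ) (sq_nonneg _)).trans hpt).trans ?_
      calc Z * Real.exp (-(k / CP)) ≤ Real.exp L2 * Real.exp (-(k / CP)) :=
            mul_le_mul_of_nonneg_right hZe (Real.exp_pos _).le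
        _ = Real.exp (L2 - k / CP) := by rw [← Real.exp_add]; congr 1
    have e2 : F k ζ ^ 2 = Real.exp L * (Real.exp (-L) * F k ζ ^ 2) := by
      rw [← mul_assoc, ← Real.exp_add]
      simp
    have e3 : F k ζ ^ 2 ≤ Real.exp (L + L2 - k / (2 * CP)) ^ 2 := by
      rw [e2]
      calc Real.exp L * (Real.exp (-L) * F k ζ ^ 2) ≤ Real.exp L * Real.exp (L2 - k / CP) :=
            mul_le_mul_of_nonneg_left e1 (Real.exp_pos _).le
        _ = Real.exp (L + (L2 - k / CP)) := by rw [← Real.exp_add]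
        _ ≤ Real.exp (L + L2 - k / (2 * CP) + (L + L2 - k / (2 * CP))) := by
            apply Real.exp_le_exp.2
            have : (k : ℝ) / (2 * CP) + k / (2 * CP) = k / CP := by
              field_simp
              ring
            linarith
        _ = Real.exp (L + L2 - k / (2 * CP)) ^ 2 := by
            rw [Real.exp_add, sq]
    exact abs_le_of_sq_le_sq e3 (Real.exp_pos _).le
  -- the stationary tail
  have hctail : c ≤ ∑ z ∈ Finset.Ico A q1, ∑ x ∈ Finset.Ico x0 B, RR r l z x +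
      ∑ z ∈ Finset.Ico A x0, ∑ x ∈ Finset.Ico q2 B, RR r l z x := by
    apply le_of_forall_pos_le_add
    intro ε hε
    obtain ⟨k, hk⟩ := exists_nat_gt ((L + L2 - Real.log ε) * (2 * CP))
    have hsm : Real.exp (L + L2 - k / (2 * CP)) ≤ ε := by
      rw [← Real.le_log_iff_exp_le hε]
      have : L + L2 - Real.log ε < k / (2 * CP) := by
        rw [lt_div_iff₀ (by positivity)]
        exact hk
      linarith
    have hζ : qg_srt A x0 B η ∈ X := by
      rw [hX]
      unfold XW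
      rw [Finset.mem_filter]
      refine ⟨Finset.mem_univ _, qg_srt_cnt h1 h2 hB η, ?_⟩
      intro i hi hi2
      exact qg_srt_out η (Finset.mem_range.1 hi) hi2
    have h3 := (abs_le.1 (hptw k _ hζ)).1
    have hAIoo : A ∉ Finset.Ioo A B := by simp
    have hBIoo : B ∉ Finset.Ioo A B := by simp
    have h4 := hT N r l (fun _ => Finset.Ioo A B) k A (max A q1) x0 (min B q2) B (qg_srt A x0 B η) hA hPos
      (le_max_left _ _) (max_le h1 hq1) (le_min h2 hq2) (min_le_left _ _) hB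
      (fun _ => ⟨hAIoo, hBIoo⟩) (qg_srt_sorted h1 hB h2 η)
    have e1 : (sorted A (max A q1) (min B q2) B : Set (Cfg N)) = sorted A q1 q2 B := by
      ext ξ
      simp only [sorted, Set.mem_setOf_eq]
      constructor
      · rintro ⟨a, b⟩
        refine ⟨fun i hi1 hi2 => a i hi1 (lt_of_lt_of_le hi2 (le_max_right _ _)),
          fun i hi1 hi2 => b i ((min_le_right _ _).trans hi1) hi2⟩
      · rintro ⟨a, b⟩
        refine ⟨fun i hi1 hi2 => a i hi1 ?_, fun i hi1 hi2 => b i ?_ hi2⟩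
        · rcases lt_max_iff.1 hi2 with h | h
          · omega
          · exact h
        · rcases min_le_iff.1 hi1 with h | h
          · omega
          · exact h
    have e2 : Finset.Ico A (max A q1) = Finset.Ico A q1 := by
      ext i
      rw [Finset.mem_Ico, Finset.mem_Ico, lt_max_iff]
      omega
    have e3 : Finset.Ico (min B q2) B = Finset.Ico q2 B := by
      ext i
      rw [Finset.mem_Ico, Finset.mem_Ico, min_le_iff]
      omega
    rw [e1, e2, e3] at h4
    have h5 : pr r l (fun _ => Finset.Ioo A B) k (sorted A q1 q2 B)ᶜ (qg_srt A x0 B η) =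
        F k (qg_srt A x0 B η) + c := by
      rw [hF]
      simp only [hu]
      unfold pr
      rw [hf0]
      ring
    rw [h5] at h4
    linarith
  have hfin := (abs_le.1 (hptw m η hmem)).2
  have h5 : pr r l (fun _ => Finset.Ioo A B) m (sorted A q1 q2 B)ᶜ η = F m η + c := by
    rw [hF]
    simp only [hu]
    unfold pr
    rw [hf0]
    ring
  rw [h5]
  have h6 : (m : ℝ) / (2 * CP) = m * rmin / (4 * N * (((B : ℝ) - A) ^ 5 * D ^ 2)) := by
    rw [hCP]
    field_simp
    ring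
  rw [h6] at hfin
  linarith

end Pool.Agent.Helper98.EX
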